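import Pool.Agent.K6.H29.Unif
import Pool.Agent.TH806.N4.Abs

set_option autoImplicit false

/-!
# MP_f9aece_nt: how the moments of order near four are distributed over the values of zeta, one-sided Gaussian bounds

Let `Φ` be the distribution function of the standard Gaussian law and
`V(T, β, y) = (log T)^(β/2) exp (y √(½ log log T))`. For every `ε > 0` there is `δ > 0` such that, for all large `T`,
uniformly in the real number `y`:

* for `4 - δ ≤ β ≤ 4` the part of the moment of order `β` from the values `|ζ| ≤ V(T, β, y)` is at most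
  `(Φ(y)/(2π²) + ε) (log T)^(β²/4)`;
* for `4 ≤ β ≤ 4 + δ` the part of the moment of order `β` from the values `|ζ| > V(T, β, y)` is at least
  `((1 - Φ(y))/(2π²) - ε) (log T)^(β²/4)`.

Both hold for the average of the problem and for the averages over `[T, T + H]` with `T/(log T)^α ≤ H ≤ T`, `α < 1/2`.
In particular (`β = 4`), all but a share `Φ(y) + o(1)` of the fourth moment comes from the points where
`|ζ| > (log T)² exp (y √(½ log log T))`.
-/

namespace Pool.Agent.Results.MP_f9aece_nt.FourthMomentLaw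

open Filter MeasureTheory Topology ProbabilityTheory

/-- the distribution function of the standard Gaussian law -/
noncomputable def Phi (y : ℝ) : ℝ :=
  (Real.sqrt (2 * Real.pi))⁻¹ * ∫ v in Set.Iic y, Real.exp (-(v ^ 2 / 2))

/-- the level `(log T)^(β/2) exp (y √(½ log log T))` -/
noncomputable def level (T β y : ℝ) : ℝ :=
  Real.log T ^ (β / 2) * Real.exp (y * Real.sqrt (1 / 2 * Real.log (Real.log T)))

theorem Phi_eq (y : ℝ) : Pool.Agent.K6.H29.Ga y = Phi y := by
  unfold Pool.Agent.K6.H29.Ga Measure.real Phi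
  rw [gaussianReal_apply_eq_integral 0 one_ne_zero, ENNReal.toReal_ofReal
    (setIntegral_nonneg measurableSet_Iic fun v _ => gaussianPDFReal_nonneg 0 1 v),
    ← integral_const_mul]
  refine setIntegral_congr_fun measurableSet_Iic fun v _ => ?_
  simp only [gaussianPDFReal, NNReal.coe_one, mul_one, sub_zero]
  congr 2
  ring

theorem result (ε : ℝ) (hε : 0 < ε) :
    ∃ δ : ℝ, 0 < δ ∧
      (∀ x : ℝ, ∀ᶠ T : ℝ in atTop,
        (∀ β : ℝ, 4 - δ ≤ β → β ≤ 4 → ∀ y : ℝ,
          ∫ u in {u : ℝ | u ∈ Set.Icc 0 1 ∧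
              ‖riemannZeta (1 / 2 + Complex.I * x + Complex.I * (u * T))‖ ≤ level T β y},
            ‖riemannZeta (1 / 2 + Complex.I * x + Complex.I * (u * T))‖ ^ β ≤
            (1 / (2 * Real.pi ^ 2) * Phi y + ε) * Real.exp (1 / 4 * β ^ 2 * Real.log (Real.log T))) ∧
        (∀ β : ℝ, 4 ≤ β → β ≤ 4 + δ → ∀ y : ℝ,
          (1 / (2 * Real.pi ^ 2) * (1 - Phi y) - ε) * Real.exp (1 / 4 * β ^ 2 * Real.log (Real.log T)) ≤
          ∫ u in {u : ℝ | u ∈ Set.Icc 0 1 ∧
              level T β y < ‖riemannZeta (1 / 2 + Complex.I * x + Complex.I * (u * T))‖},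
            ‖riemannZeta (1 / 2 + Complex.I * x + Complex.I * (u * T))‖ ^ β)) ∧
      (∀ α : ℝ, 0 ≤ α → α < 1 / 2 → ∀ᶠ T : ℝ in atTop, ∀ H : ℝ, T / Real.log T ^ α ≤ H → H ≤ T →
        (∀ β : ℝ, 4 - δ ≤ β → β ≤ 4 → ∀ y : ℝ,
          1 / H * ∫ t in {t : ℝ | t ∈ Set.Icc T (T + H) ∧
              ‖riemannZeta (1 / 2 + Complex.I * t)‖ ≤ level T β y},
            ‖riemannZeta (1 / 2 + Complex.I * t)‖ ^ β ≤
            (1 / (2 * Real.pi ^ 2) * Phi y + ε) * Real.exp (1 / 4 * β ^ 2 * Real.log (Real.log T))) ∧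
        (∀ β : ℝ, 4 ≤ β → β ≤ 4 + δ → ∀ y : ℝ,
          (1 / (2 * Real.pi ^ 2) * (1 - Phi y) - ε) * Real.exp (1 / 4 * β ^ 2 * Real.log (Real.log T)) ≤
          1 / H * ∫ t in {t : ℝ | t ∈ Set.Icc T (T + H) ∧
              level T β y < ‖riemannZeta (1 / 2 + Complex.I * t)‖},
            ‖riemannZeta (1 / 2 + Complex.I * t)‖ ^ β)) := by
  have hWG := Pool.Agent.K6.H29.t_WG Pool.Agent.TH806.N4.a_T4.1 Pool.Agent.TH971.N4_W2.t_W2
    Pool.Agent.TH989.N4_T2.t_T2 Pool.Agent.TH806.N4.a_T4.2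
  obtain ⟨δ1, h1, hA⟩ := Pool.Agent.K6.H29.abs4u Pool.Agent.TH806.N4.a_ING hWG Pool.Agent.TH806.N4.a_SHT.2 hε
  obtain ⟨δ2, h2, hB⟩ := Pool.Agent.K6.H29.int4u Pool.Agent.TH806.N4.a_ING hWG Pool.Agent.TH806.N4.a_SHT.1 hε
  have hexp : ∀ (T β : ℝ), 1 ≤ Real.log T →
      Real.exp (1 / 4 * β ^ 2 * Real.log (Real.log T)) = Real.log T ^ (β ^ 2 / 4) := by
    intro T β hL
    rw [Real.rpow_def_of_pos (by linarith)]
    congr 1; ring
  have eX : ∀ x T u : ℝ, ‖riemannZeta (1 / 2 + Complex.I * x + Complex.I * (u * T))‖ =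
      Pool.Agent.TH806.Xz (x + u * T) := by
    intro x T u
    rw [Pool.Agent.K6.H29.Xz_shift]
    congr 2
    push_cast
    ring
  have eX' : ∀ t : ℝ, ‖riemannZeta (1 / 2 + Complex.I * t)‖ = Pool.Agent.TH806.Xz t := by
    intro t
    unfold Pool.Agent.TH806.Xz Pool.Agent.H306R2.SM.cl
    congr 2
    ring
  refine ⟨min δ1 δ2, lt_min h1 h2, fun x => ?_, fun α ha0 ha1 => ?_⟩
  · filter_upwards [hA x, Real.tendsto_log_atTop.eventually_ge_atTop 1] with T h3 hL
    refine ⟨fun β hb1 hb2 y => ?_, fun β hb1 hb2 y => ?_⟩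
    · rw [hexp T β hL, ← Phi_eq]
      simp only [eX]
      exact h3.1 β (by linarith [min_le_left δ1 δ2]) hb2 y
    · rw [hexp T β hL, ← Phi_eq]
      simp only [eX]
      exact h3.2 β hb1 (by linarith [min_le_left δ1 δ2]) y
  · filter_upwards [hB α ha0 ha1, Real.tendsto_log_atTop.eventually_ge_atTop 1,
      eventually_gt_atTop (0:ℝ)] with T h3 hL hT H hH1 hH2
    have h4 := h3 H hH1 hH2
    have hH : 0 < H := lt_of_lt_of_le (by positivity) hH1
    refine ⟨fun β hb1 hb2 y => ?_, fun β hb1 hb2 y => ?_⟩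
    · rw [hexp T β hL, ← Phi_eq]
      simp only [eX']
      rw [one_div H, inv_mul_le_iff₀ hH]
      refine (h4.1 β (by linarith [min_le_right δ1 δ2]) hb2 y).trans (le_of_eq ?_)
      unfold Pool.Agent.TH73.N4_SHT.c4
      ring
    · rw [hexp T β hL, ← Phi_eq]
      simp only [eX']
      rw [one_div H, le_inv_mul_iff₀ hH]
      refine le_trans (le_of_eq ?_) (h4.2 β hb1 (by linarith [min_le_right δ1 δ2]) y)
      unfold Pool.Agent.TH73.N4_SHT.c4
      ring

end Pool.Agent.Results.MP_f9aece_nt.FourthMomentLaw
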