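import Pool.Agent.K6.H29.A8

set_option autoImplicit false

/-!
MP_f9aece_nt, exponents `β → 2`, unconditionally: the joint law of the size and of the arithmetic phases under the
measures `|ζ|^β dt`.

Let `h, l ≥ 1` be integers and let `Φ` be the distribution function of the standard Gaussian law. For every `ε > 0` there
is `δ > 0` such that for every real `x` and all large `T`, simultaneously for all real `β` with `|β - 2| ≤ δ` and all
real levels `y`, the integral of `|ζ(1/2 + ix + iuT)|^β (h/l)^{i(x + uT)}` over the `u` in `[0, 1]` with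
`log |ζ(1/2 + ix + iuT)| ≤ (β/2) log log T + y sqrt ((1/2) log log T)`, divided by `(log T)^(β²/4)`, is within `ε` of
`(gcd(h, l) / sqrt (h l)) Φ(y)`; the same integral over the whole of `[0, 1]` is within `ε` of `gcd(h, l) / sqrt (h l)`;
and both hold as well for the means over all the intervals `[T, T + H]`, `T / (log T)^α ≤ H ≤ T`, for each
`0 ≤ α < 1/2`.
-/

open Filter MeasureTheory ProbabilityTheory

open Pool.Agent.K6.H29 Pool.Agent.K6.H29.A Pool.Agent.TH806 in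
theorem Pool.Agent.Results.MP_f9aece_nt.JointLawNearTwo.result (h l : ℕ) (hh : 0 < h) (hl : 0 < l) (ε : ℝ)
    (hε : 0 < ε) : ∃ δ : ℝ, 0 < δ ∧
      (∀ x : ℝ, ∀ᶠ T : ℝ in atTop, ∀ β : ℝ, |β - 2| ≤ δ →
        (∀ y : ℝ, ‖(∫ u in {u : ℝ | u ∈ Set.Icc (0:ℝ) 1 ∧
            ‖riemannZeta (1 / 2 + x * Complex.I + (u * T) * Complex.I)‖ ≤
              Real.log T ^ (β / 2) * Real.exp (y * Real.sqrt (1 / 2 * Real.log (Real.log T)))},
            ((‖riemannZeta (1 / 2 + x * Complex.I + (u * T) * Complex.I)‖ ^ β : ℝ) : ℂ) *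
              ((h : ℂ) / l) ^ (((x:ℂ) + u * T) * Complex.I)) / ((Real.log T ^ (β ^ 2 / 4) : ℝ) : ℂ) -
          (((Nat.gcd h l : ℝ) / Real.sqrt (h * l) * (gaussianReal 0 1).real (Set.Iic y) : ℝ) : ℂ)‖ ≤ ε) ∧
        ‖(∫ u in (0:ℝ)..1, ((‖riemannZeta (1 / 2 + x * Complex.I + (u * T) * Complex.I)‖ ^ β : ℝ) : ℂ) *
              ((h : ℂ) / l) ^ (((x:ℂ) + u * T) * Complex.I)) / ((Real.log T ^ (β ^ 2 / 4) : ℝ) : ℂ) -
          (((Nat.gcd h l : ℝ) / Real.sqrt (h * l) : ℝ) : ℂ)‖ ≤ ε) ∧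
      (∀ α : ℝ, 0 ≤ α → α < 1 / 2 → ∀ᶠ T : ℝ in atTop, ∀ H : ℝ, T / Real.log T ^ α ≤ H → H ≤ T →
        ∀ β : ℝ, |β - 2| ≤ δ →
        (∀ y : ℝ, ‖(∫ t in {t : ℝ | t ∈ Set.Icc T (T + H) ∧ ‖riemannZeta (1 / 2 + t * Complex.I)‖ ≤
              Real.log T ^ (β / 2) * Real.exp (y * Real.sqrt (1 / 2 * Real.log (Real.log T)))},
            ((‖riemannZeta (1 / 2 + t * Complex.I)‖ ^ β : ℝ) : ℂ) * ((h : ℂ) / l) ^ ((t:ℂ) * Complex.I)) /
              ((H * Real.log T ^ (β ^ 2 / 4) : ℝ) : ℂ) -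
          (((Nat.gcd h l : ℝ) / Real.sqrt (h * l) * (gaussianReal 0 1).real (Set.Iic y) : ℝ) : ℂ)‖ ≤ ε) ∧
        ‖(∫ t in T..(T + H), ((‖riemannZeta (1 / 2 + t * Complex.I)‖ ^ β : ℝ) : ℂ) *
              ((h : ℂ) / l) ^ ((t:ℂ) * Complex.I)) / ((H * Real.log T ^ (β ^ 2 / 4) : ℝ) : ℂ) -
          (((Nat.gcd h l : ℝ) / Real.sqrt (h * l) : ℝ) : ℂ)‖ ≤ ε) := by
  obtain ⟨l', h', hl'0, hh'0, hco, hD, hu⟩ := reduce hl hh
  rw [Nat.gcd_comm l h, mul_comm (l:ℝ) h] at hu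
  obtain ⟨δ1, hδ1, hA⟩ := jointA hl'0 hh'0 hco (show 0 < ε / 2 by positivity)
  obtain ⟨δ2, hδ2, hI⟩ := jointI hl'0 hh'0 hco (show 0 < ε / 2 by positivity)
  refine ⟨min (min δ1 δ2) 1, by positivity, fun x => ?_, fun α hα0 hα => ?_⟩
  · filter_upwards [hA x, Real.tendsto_log_atTop.eventually_gt_atTop 1] with T hT hL β hβ
    have hL0 : 0 < Real.log T := by linarith
    have hβ1 := hβ.trans ((min_le_left _ _).trans (min_le_left _ _))
    have hβ2 := abs_le.mp (hβ.trans (min_le_right _ _))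
    have hM : 0 < Real.log T ^ (β ^ 2 / 4) := Real.rpow_pos_of_pos hL0 _
    have hgc : Continuous fun s : ℝ => Xz (x + s * T) := Xz_cont.comp (by fun_prop)
    have hθ : Continuous fun s : ℝ => (x + s * T) * (Real.log h - Real.log l) := by fun_prop
    have hχ : ∀ s : ℝ, ((h : ℂ) / l) ^ (((x:ℂ) + s * T) * Complex.I) =
        ((Real.cos ((x + s * T) * (Real.log h - Real.log l)) : ℝ) : ℂ) +
        ((Real.sin ((x + s * T) * (Real.log h - Real.log l)) : ℝ) : ℂ) * Complex.I := by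
      intro s
      rw [← cpow_phase hh hl]
      push_cast
      rfl
    have key : ∀ y : ℝ, ‖trc (fun s => Xz (x + s * T)) (fun s => ((h : ℂ) / l) ^ (((x:ℂ) + s * T) * Complex.I))
        0 1 β (lev T β y) / ((Real.log T ^ (β ^ 2 / 4) : ℝ) : ℂ) -
          (((Nat.gcd h l : ℝ) / Real.sqrt (h * l) * Ga y : ℝ) : ℂ)‖ ≤ ε := by
      intro y
      obtain ⟨h1, h2⟩ := hT β hβ1 y
      rw [← hD] at h1 h2
      rw [hu] at h1
      have := trc_le hgc hθ (χ := fun s => ((h : ℂ) / l) ^ (((x:ℂ) + s * T) * Complex.I)) hχ (β := β)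
        (by linarith) hM h1 h2
      linarith
    have ez : ∀ u : ℝ, ‖riemannZeta (1 / 2 + x * Complex.I + (u * T) * Complex.I)‖ = Xz (x + u * T) := by
      intro u
      unfold Xz Pool.Agent.H306R2.SM.cl
      congr 2
      push_cast
      ring
    simp only [ez]
    exact ⟨key, untr (T := T) hgc zero_le_one hL key⟩
  · filter_upwards [hI α hα0 hα, Real.tendsto_log_atTop.eventually_gt_atTop 1, eventually_gt_atTop (0:ℝ)]
      with T hT hL hT0 H hH1 hH2 β hβ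
    have hL0 : 0 < Real.log T := by linarith
    have hLa0 : 0 < Real.log T ^ α := Real.rpow_pos_of_pos hL0 _
    have hH0 : 0 < H := lt_of_lt_of_le (by positivity) hH1
    have hβ1 := hβ.trans ((min_le_left _ _).trans (min_le_right _ _))
    have hβ2 := abs_le.mp (hβ.trans (min_le_right _ _))
    have hM : 0 < H * Real.log T ^ (β ^ 2 / 4) := mul_pos hH0 (Real.rpow_pos_of_pos hL0 _)
    have hθ : Continuous fun t : ℝ => t * (Real.log h - Real.log l) := by fun_prop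
    have key : ∀ y : ℝ, ‖trc Xz (fun t => ((h : ℂ) / l) ^ ((t:ℂ) * Complex.I))
        T (T + H) β (lev T β y) / ((H * Real.log T ^ (β ^ 2 / 4) : ℝ) : ℂ) -
          (((Nat.gcd h l : ℝ) / Real.sqrt (h * l) * Ga y : ℝ) : ℂ)‖ ≤ ε := by
      intro y
      obtain ⟨h1, h2⟩ := hT H hH1 hH2 β hβ1 y
      rw [← hD] at h1 h2
      rw [hu] at h1
      have := trc_le Xz_cont hθ (χ := fun t => ((h : ℂ) / l) ^ ((t:ℂ) * Complex.I))
        (fun t => cpow_phase hh hl t) (β := β) (by linarith) hM h1 h2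
      linarith
    have ez : ∀ t : ℝ, ‖riemannZeta (1 / 2 + t * Complex.I)‖ = Xz t := fun t => rfl
    simp only [ez]
    exact ⟨key, untr (T := T) Xz_cont (by linarith) hL key⟩
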