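import Pool.Agent.K6.H33.FZ.Fin

set_option autoImplicit false

/-!
# Empirical moments of the randomly shifted zeta function along lacunary heights

`mu T y ω = ζ(1/2 + iy + iωT)` is the randomly shifted zeta function of the problem. Let `q_n > 0` be
lacunary (`q_{n+1} ≥ lam * q_n` with `lam > 1`) with `log log q_n / log n → θ`, `θ ≥ 1` (for instance
`q_n = 2^n` with `θ = 1`, or `q_n = exp (n^θ)`), and let `y` be real. Then for almost every real `ω`, for all
`β ≥ 0` at once, the empirical moment `(1/N) ∑_{n<N} |mu (q_n) y ω|^β` is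

* `N^(θβ^2/4 + o(1))` for `β ≤ 2/√θ` (the exponent given by the means `(log q_n)^(β^2/4)`),
* `N^(√θ β - 1 + o(1))` for `β ≥ 2/√θ` (the moments are frozen).
-/

namespace Pool.Agent.Results.MP_f9aece_nt.LacunaryFreezing

open Filter MeasureTheory
open scoped Topology

/-- the randomly shifted zeta function of the problem, with `ω` the random number -/
noncomputable def mu (T y ω : ℝ) : ℂ := riemannZeta (1 / 2 + Complex.I * y + Complex.I * ω * T)

lemma mu_eq (T y ω : ℝ) : ‖mu T y ω‖ = Pool.Agent.W184.zn (1 / 2) (y + ω * T) := by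
  unfold mu Pool.Agent.W184.zn
  congr 2
  push_cast
  ring

theorem result (θ lam y : ℝ) (q : ℕ → ℝ) (hθ : 1 ≤ θ) (hlam : 1 < lam) (hq0 : ∀ n, 0 < q n)
    (hq : ∀ n, lam * q n ≤ q (n + 1))
    (hlim : Tendsto (fun n : ℕ => Real.log (Real.log (q n)) / Real.log n) atTop (𝓝 θ)) :
    ∀ᵐ ω : ℝ, ∀ β : ℝ, 0 ≤ β →
      Tendsto (fun N : ℕ => Real.log (1 / (N:ℝ) * ∑ n ∈ Finset.range N, ‖mu (q n) y ω‖ ^ β) / Real.log N) atTop
        (𝓝 (if β ≤ 2 / √θ then θ * β ^ 2 / 4 else √θ * β - 1)) := by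
  filter_upwards [Pool.Agent.K6.H33.FZ.frz_all y hlam hq0 hq hθ hlim] with ω hω β hβ
  have h := hω.2.2.1 β hβ
  unfold Pool.Agent.K6.H33.FZ.dS at h
  simp only [← mu_eq] at h
  exact h

end Pool.Agent.Results.MP_f9aece_nt.LacunaryFreezing
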