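import Pool.Agent.K6.H29.B3
import Pool.Agent.W184.NZ.Two

set_option autoImplicit false

/-!
# MP_f9aece_nt, exponents tending to zero: Gaussian law of zeta under the weights `|ζ|^β`

Let `Φ` be the distribution function of the standard Gaussian law and
`V(T, β, y) = (log T)^(β/2) exp (y √(½ log log T))`. For every `ε > 0` there is `β₀ > 0` such that for every real `x`
and all large `T`, simultaneously for all `β ∈ (0, β₀]` and all real `y`, the part of the moment of order `β` coming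
from the values `|ζ| ≤ V(T, β, y)` is `(Φ(y) + O(ε)) (log T)^(β²/4)`. In particular, for every function `β(T) → 0⁺`,
however slowly it tends to zero, `log |ζ|` is asymptotically Gaussian, with mean `½ β(T) log log T` and variance
`½ log log T`, under the probability measure proportional to `|ζ|^β(T)`.
-/

namespace Pool.Agent.Results.MP_f9aece_nt.NearZeroLaw

open Filter MeasureTheory Topology ProbabilityTheory

/-- the distribution function of the standard Gaussian law -/
noncomputable def Phi (y : ℝ) : ℝ :=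
  (Real.sqrt (2 * Real.pi))⁻¹ * ∫ v in Set.Iic y, Real.exp (-(v ^ 2 / 2))

/-- the level `(log T)^(β/2) exp (y √(½ log log T))` -/
noncomputable def level (T β y : ℝ) : ℝ :=
  Real.log T ^ (β / 2) * Real.exp (y * Real.sqrt (1 / 2 * Real.log (Real.log T)))

/-- the part of the moment of order `β` from the values at most `V` -/
noncomputable def part (x T β V : ℝ) : ℝ :=
  ∫ u in {u : ℝ | u ∈ Set.Icc 0 1 ∧ ‖riemannZeta (1 / 2 + x * Complex.I + (u * T) * Complex.I)‖ ≤ V},
    ‖riemannZeta (1 / 2 + x * Complex.I + (u * T) * Complex.I)‖ ^ β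

/-- the moment of order `β` -/
noncomputable def moment (x T β : ℝ) : ℝ :=
  ∫ u in (0:ℝ)..1, ‖riemannZeta (1 / 2 + x * Complex.I + (u * T) * Complex.I)‖ ^ β

theorem Phi_eq (y : ℝ) : Pool.Agent.K6.H29.Ga y = Phi y := by
  unfold Pool.Agent.K6.H29.Ga Measure.real Phi
  rw [gaussianReal_apply_eq_integral 0 one_ne_zero, ENNReal.toReal_ofReal
    (setIntegral_nonneg measurableSet_Iic fun v _ => gaussianPDFReal_nonneg 0 1 v),
    ← integral_const_mul]
  refine setIntegral_congr_fun measurableSet_Iic fun v _ => ?_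
  simp only [gaussianPDFReal, NNReal.coe_one, mul_one, sub_zero]
  congr 2
  ring

/-- the moments near the exponent zero -/
lemma moments {κ : ℝ} (hκ : 0 < κ) : ∃ β₀ : ℝ, 0 < β₀ ∧ ∀ x : ℝ, ∀ᶠ T : ℝ in atTop, ∀ β : ℝ, 0 < β → β ≤ β₀ →
    |moment x T β - 1 * Real.log T ^ (β ^ 2 / 4)| ≤ κ * (1 * Real.log T ^ (β ^ 2 / 4)) := by
  obtain ⟨α₀, h0, h1, h2⟩ := Pool.Agent.W184.NZ.nz_two (half_pos hκ)
  refine ⟨2 * α₀, by positivity, fun x => ?_⟩
  filter_upwards [h2, Pool.Agent.W184.NZ.shiftA x (half_pos hκ),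
    Real.tendsto_log_atTop.eventually_ge_atTop 1, eventually_gt_atTop 0] with T h3 h4 hL hT β hβ hββ
  have h5 := h3 (β / 2) (by linarith) (by linarith)
  have h6 := h4 (β / 2) (by linarith) (by linarith)
  have e0 : 2 * (β / 2) = β := by ring
  have e0' : (β / 2) ^ 2 = β ^ 2 / 4 := by ring
  rw [e0] at h5 h6
  rw [e0'] at h5
  have e2 : moment x T β = T⁻¹ * ∫ t in x..(T + x), Pool.Agent.W184.zn (1 / 2) t ^ β := by
    have h5 := intervalIntegral.integral_comp_mul_add (a := (0:ℝ)) (b := 1)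
      (fun t => Pool.Agent.W184.zn (1 / 2) t ^ β) hT.ne' x
    rw [mul_zero, zero_add, mul_one, smul_eq_mul] at h5
    rw [← h5]
    unfold moment
    refine intervalIntegral.integral_congr fun u _ => ?_
    unfold Pool.Agent.W184.zn
    congr 3
    push_cast
    ring
  rw [e2, one_mul]
  set W := ∫ t in x..(T + x), Pool.Agent.W184.zn (1 / 2) t ^ β
  set V := ∫ t in (0:ℝ)..T, Pool.Agent.W184.zn (1 / 2) t ^ β
  set P := Real.log T ^ (β ^ 2 / 4) with hP
  have hP1 : 1 ≤ P := Real.one_le_rpow hL (by positivity)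
  have hP0 : 0 < P := by linarith
  have hTP : T ≤ T * P := le_mul_of_one_le_right hT.le hP1
  have h7 : |W - T * P| ≤ κ * (T * P) := by
    calc |W - T * P| = |(W - V) + (V - T * P)| := by ring_nf
      _ ≤ |W - V| + |V - T * P| := abs_add_le _ _
      _ ≤ κ / 2 * T + κ / 2 * (T * P) := add_le_add h6 h5
      _ ≤ κ / 2 * (T * P) + κ / 2 * (T * P) := by gcongr
      _ = _ := by ring
  have e3 : T⁻¹ * W - P = (W - T * P) / T := by field_simp
  rw [e3, abs_div, abs_of_pos hT, div_le_iff₀ hT]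
  linarith

theorem result :
    (∀ ε : ℝ, 0 < ε → ∃ β₀ : ℝ, 0 < β₀ ∧ ∀ x : ℝ, ∀ᶠ T : ℝ in atTop, ∀ β : ℝ, 0 < β → β ≤ β₀ → ∀ y : ℝ,
      |part x T β (level T β y) / Real.exp (β ^ 2 / 4 * Real.log (Real.log T)) - Phi y| ≤ ε) ∧
    (∀ (x : ℝ) (β : ℝ → ℝ), (∀ᶠ T : ℝ in atTop, 0 < β T) → Tendsto β atTop (𝓝 0) →
      ∀ y : ℝ, Tendsto (fun T : ℝ => part x T (β T) (level T (β T) y) / moment x T (β T)) atTop (𝓝 (Phi y))) := by
  have main : ∀ ε : ℝ, 0 < ε → ∃ β₀ : ℝ, 0 < β₀ ∧ ∀ x : ℝ, ∀ᶠ T : ℝ in atTop, ∀ β : ℝ, 0 < β → β ≤ β₀ → ∀ y : ℝ,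
      |part x T β (level T β y) / Real.exp (β ^ 2 / 4 * Real.log (Real.log T)) - Phi y| ≤ ε := by
    intro ε hε
    obtain ⟨κ, A, hκ, hA, hQ⟩ := Pool.Agent.K6.H29.B.mgf1_unif hε
    obtain ⟨δ, hδ, hM⟩ := moments (κ := κ / Real.exp (A ^ 2 / 2)) (by positivity)
    refine ⟨δ / 2, by positivity, fun x => ?_⟩
    have hLL : Tendsto (fun T : ℝ => Real.sqrt (1 / 2 * Real.log (Real.log T))) atTop atTop :=
      Real.tendsto_sqrt_atTop.comp
        ((Real.tendsto_log_atTop.comp Real.tendsto_log_atTop).const_mul_atTop (by norm_num))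
    filter_upwards [hM x, hLL.eventually_ge_atTop (A / (δ / 2)), hLL.eventually_gt_atTop 0,
      Real.tendsto_log_atTop.eventually_gt_atTop 1] with T h1 h2 h3 hL β hβ hββ y
    have hg : Continuous fun u : ℝ => ‖riemannZeta (1 / 2 + x * Complex.I + (u * T) * Complex.I)‖ := by
      refine continuous_norm.comp (continuous_iff_continuousAt.mpr fun u => ?_)
      refine ContinuousAt.comp (g := riemannZeta) (differentiableAt_riemannZeta ?_).continuousAt
        (by fun_prop)
      intro h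
      have := congrArg Complex.re h
      simp at this
    have hA2 : A / Real.sqrt (1 / 2 * Real.log (Real.log T)) ≤ δ / 2 := by
      rw [div_le_iff₀ (by positivity)] at h2
      rw [div_le_iff₀ h3]
      linarith
    have h4 := Pool.Agent.K6.H29.B.law_of_mom1 (g := fun u : ℝ =>
      ‖riemannZeta (1 / 2 + x * Complex.I + (u * T) * Complex.I)‖) hg (fun _ => norm_nonneg _)
      (a := 0) (b := 1) (N := 1) (κ0 := κ) (κ1 := κ / Real.exp (A ^ 2 / 2)) (A := A) (u := y) (ε := ε) (δ := δ)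
      (L := Real.log T) (β := β) zero_le_one one_pos hL hβ hββ (by positivity) hA2
      (by rw [div_mul_cancel₀ _ (Real.exp_pos _).ne']) (fun β' hb1 hb2 => h1 β' hb1 hb2) (fun p Y m hN => hQ p Y m hN y)
    have e1 : Real.exp (β ^ 2 / 4 * Real.log (Real.log T)) = Real.log T ^ (β ^ 2 / 4) := by
      rw [Real.rpow_def_of_pos (by linarith), mul_comm]
    have hP0 : 0 < Real.log T ^ (β ^ 2 / 4) := Real.rpow_pos_of_pos (by linarith) _
    rw [e1, ← Phi_eq]
    have e3 : part x T β (level T β y) / Real.log T ^ (β ^ 2 / 4) - Pool.Agent.K6.H29.Ga y =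
        (part x T β (level T β y) - Pool.Agent.K6.H29.Ga y * (1 * Real.log T ^ (β ^ 2 / 4))) /
          Real.log T ^ (β ^ 2 / 4) := by
      field_simp
    rw [e3, abs_div, abs_of_pos hP0, div_le_iff₀ hP0]
    refine le_trans h4 (le_of_eq ?_)
    rw [one_mul]
  refine ⟨main, fun x β hβ hβ0 y => ?_⟩
  have hd : Tendsto (fun T : ℝ => moment x T (β T) / Real.exp (β T ^ 2 / 4 * Real.log (Real.log T))) atTop (𝓝 1) := by
    rw [Metric.tendsto_nhds]
    intro ε hε
    obtain ⟨β₀, h0, h1⟩ := moments (half_pos hε)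
    filter_upwards [h1 x, hβ, hβ0.eventually (gt_mem_nhds h0), Real.tendsto_log_atTop.eventually_gt_atTop 1]
      with T h2 h3 h4 hL
    rw [Real.dist_eq]
    have h5 := h2 (β T) h3 h4.le
    have hP0 : 0 < Real.log T ^ (β T ^ 2 / 4) := Real.rpow_pos_of_pos (by linarith) _
    have e1 : Real.exp (β T ^ 2 / 4 * Real.log (Real.log T)) = Real.log T ^ (β T ^ 2 / 4) := by
      rw [Real.rpow_def_of_pos (by linarith), mul_comm]
    rw [e1]
    have e3 : moment x T (β T) / Real.log T ^ (β T ^ 2 / 4) - 1 =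
        (moment x T (β T) - 1 * Real.log T ^ (β T ^ 2 / 4)) / Real.log T ^ (β T ^ 2 / 4) := by
      field_simp
    rw [e3, abs_div, abs_of_pos hP0, div_lt_iff₀ hP0]
    nlinarith
  have hn : Tendsto (fun T : ℝ => part x T (β T) (level T (β T) y) /
      Real.exp (β T ^ 2 / 4 * Real.log (Real.log T))) atTop (𝓝 (Phi y)) := by
    rw [Metric.tendsto_nhds]
    intro ε hε
    obtain ⟨β₀, h0, h1⟩ := main (ε / 2) (half_pos hε)
    filter_upwards [h1 x, hβ, hβ0.eventually (gt_mem_nhds h0)] with T h2 h3 h4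
    rw [Real.dist_eq]
    exact (h2 (β T) h3 h4.le y).trans_lt (half_lt_self hε)
  have h := hn.div hd one_ne_zero
  rw [div_one] at h
  refine h.congr fun T => ?_
  have hE : Real.exp (β T ^ 2 / 4 * Real.log (Real.log T)) ≠ 0 := (Real.exp_pos _).ne'
  show part x T (β T) (level T (β T) y) / Real.exp (β T ^ 2 / 4 * Real.log (Real.log T)) /
    (moment x T (β T) / Real.exp (β T ^ 2 / 4 * Real.log (Real.log T))) = _
  rw [div_div_div_cancel_right₀ hE]

end Pool.Agent.Results.MP_f9aece_nt.NearZeroLaw
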